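import Pool.Agent.Run7.h292.Final

/-!
The square root of two is not a limit point of the set of global dimensions of spherical fusion
categories over the complex numbers.
-/

set_option autoImplicit false

open Run7.h292

universe v u

/-- The number `√2` is not a limit point of the set of global dimensions of spherical fusion
categories over `ℂ`. -/
theorem Pool.Agent.Results.MP_d1a06a_al.SqrtTwoNotLimit.result :
    ¬ AccPt (Real.sqrt 2) (Filter.principal sphericalGlobalDims.{v, u}) :=
  not_accPt_sqrt_two
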